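import Pool.Agent.CD7.TDefs

/-!
MP_cd7e06_al, odd exponents: traces of lists and raised letters.
-/

set_option autoImplicit false

namespace H96CD

open H74CL H55CD

/-! ### counting -/

lemma count_ex (p : ℕ → Prop) [DecidablePred p] (t : ℕ) : ∀ a, t < Nat.count p a →
    ∃ i < a, p i ∧ Nat.count p i = t := by
  intro a
  induction a with
  | zero => intro h; simp at h
  | succ a ih =>
    intro h
    rw [Nat.count_succ] at h
    by_cases h1 : t < Nat.count p a
    · obtain ⟨i, hi, h2⟩ := ih h1
      exact ⟨i, by omega, h2⟩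
    · by_cases h2 : p a
      · rw [if_pos h2] at h
        exact ⟨a, by omega, h2, by omega⟩
      · rw [if_neg h2] at h
        omega

lemma count_congr (p q : ℕ → Prop) [DecidablePred p] [DecidablePred q] :
    ∀ a, (∀ i < a, (p i ↔ q i)) → Nat.count p a = Nat.count q a := by
  intro a
  induction a with
  | zero => intro _; simp
  | succ a ih =>
    intro h
    rw [Nat.count_succ, Nat.count_succ, ih (fun i hi => h i (by omega))]
    congr 1
    simp only [h a (by omega)]

lemma isT_lt {L : Wd} {q i : ℕ} (h : isT L q i) : i < L.length := by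
  by_contra h1
  unfold isT at h
  rw [List.getElem?_eq_none (by omega)] at h
  simp at h

lemma ps_spec {L : Wd} {q t : ℕ} (h : t < nT L q) :
    ps L q t < L.length ∧ isT L q (ps L q t) ∧ Nat.count (isT L q) (ps L q t) = t := by
  obtain ⟨i, hi, h1, h2⟩ := count_ex (isT L q) t L.length h
  have h3 : ps L q t = i := by
    unfold ps
    rw [← h2]
    exact Nat.nth_count h1
  rw [h3]
  exact ⟨hi, h1, h2⟩

lemma ps_count {L : Wd} {q i : ℕ} (h : isT L q i) : ps L q (Nat.count (isT L q) i) = i :=
  Nat.nth_count h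

lemma count_lt {L : Wd} {q i : ℕ} (h : isT L q i) : Nat.count (isT L q) i < nT L q := by
  have h1 := isT_lt h
  have h2 : Nat.count (isT L q) (i + 1) ≤ nT L q := Nat.count_monotone _ h1
  rw [Nat.count_succ, if_pos h] at h2
  omega

lemma isT_append_left {L : Wd} {q i : ℕ} (M : Wd) (h : i < L.length) :
    isT (L ++ M) q i ↔ isT L q i := by
  unfold isT
  rw [List.getElem?_append_left h]

lemma count_append_left (L M : Wd) (q i : ℕ) (h : i ≤ L.length) :
    Nat.count (isT (L ++ M) q) i = Nat.count (isT L q) i :=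
  count_congr _ _ i (fun _ hj => isT_append_left M (by omega))

lemma ps_append_left {L : Wd} {q t : ℕ} (M : Wd) (h : t < nT L q) :
    ps (L ++ M) q t = ps L q t := by
  obtain ⟨h1, h2, h3⟩ := ps_spec h
  have h4 : isT (L ++ M) q (ps L q t) := (isT_append_left M h1).2 h2
  have h5 := ps_count h4
  rw [count_append_left L M q _ h1.le, h3] at h5
  exact h5

lemma nT_nil (q : ℕ) : nT [] q = 0 := by simp [nT]

lemma nT_cons (p : ℕ × Bool) (L : Wd) (q : ℕ) :
    nT (p :: L) q = nT L q + (if p.1 = q then 1 else 0) := by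
  unfold nT
  rw [List.length_cons, Nat.count_succ']
  have h1 : Nat.count (fun k => isT (p :: L) q (k + 1)) L.length =
      Nat.count (isT L q) L.length := by
    apply count_congr
    intro i _
    unfold isT
    rw [List.getElem?_cons_succ]
  have h2 : isT (p :: L) q 0 ↔ p.1 = q := by
    unfold isT
    simp
  rw [h1]
  simp only [h2]

lemma nT_append (L M : Wd) (q : ℕ) : nT (L ++ M) q = nT L q + nT M q := by
  induction L with
  | nil => rw [List.nil_append, nT_nil, zero_add]
  | cons p L ih => rw [List.cons_append, nT_cons, nT_cons, ih]; ring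

lemma nT_single (p : ℕ × Bool) (q : ℕ) : nT [p] q = if p.1 = q then 1 else 0 := by
  rw [nT_cons, nT_nil, zero_add]

/-! ### exponents -/

lemma ax_nil : ax [] = 0 := rfl

lemma ax_cons (p : ℕ × Bool) (L : Wd) : ax (p :: L) = al p + ax L := by
  simp [ax]

lemma ax_append (L M : Wd) : ax (L ++ M) = ax L + ax M := by
  simp [ax]

end H96CD

namespace H55CD

open H74CL H96CD

theorem tr_append (q : ℕ) (h : ℤ) (L₁ L₂ : Wd) :
    tr q h (L₁ ++ L₂) = tr q h L₁ ++ tr q (h + ax L₁) L₂ := by
  induction L₁ generalizing h with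
  | nil => simp [tr, ax]
  | cons p L₁ ih =>
    rw [List.cons_append, tr, tr, ih, ax_cons, add_assoc]
    split_ifs <;> rfl

theorem tr_spec (q : ℕ) (L : Wd) :
    tr q 0 L = (List.range (nT L q)).map (fun t => (sg L q t, hh L q t)) := by
  induction L using List.reverseRecOn with
  | nil => simp [tr, nT_nil]
  | append_singleton L p ih =>
    rw [tr_append, ih, nT_append, nT_single, zero_add]
    have h1 : (List.range (nT L q)).map (fun t => (sg L q t, hh L q t)) =
        (List.range (nT L q)).map (fun t => (sg (L ++ [p]) q t, hh (L ++ [p]) q t)) := by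
      apply List.map_congr_left
      intro t ht'
      rw [List.mem_range] at ht'
      obtain ⟨h1, h2, h3⟩ := ps_spec ht'
      have h4 := ps_append_left [p] ht'
      refine Prod.ext ?_ ?_
      · simp only [sg, sgn']
        rw [h4, List.getElem?_append_left h1]
      · simp only [hh, H55CD.ht]
        rw [h4, List.take_append_of_le_length h1.le]
    rw [h1]
    by_cases hp : p.1 = q
    · rw [if_pos hp, List.range_succ, List.map_append]
      congr 1
      have h2 : isT (L ++ [p]) q L.length := by
        unfold isT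
        simp [hp]
      have h3 := ps_count h2
      rw [count_append_left L [p] q L.length le_rfl] at h3
      change ps (L ++ [p]) q (nT L q) = L.length at h3
      simp only [tr, if_pos hp, List.map_cons, List.map_nil, sg, sgn', hh, H55CD.ht]
      rw [h3]
      simp
    · rw [if_neg hp, add_zero]
      simp only [tr, if_neg hp, List.append_nil]

section
variable {Γ : Type*} [Group Γ]

lemma tr_none (q : ℕ) (x : ℤ) (M : Wd) (h : ∀ p ∈ M, p.1 < q) : tr q x M = [] := by
  induction M generalizing x with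
  | nil => rfl
  | cons p M ih =>
    have h1 := h p List.mem_cons_self
    rw [tr, if_neg (by omega)]
    exact ih _ (fun p' hp' => h p' (List.mem_cons_of_mem _ hp'))

theorem tr_real (r : ℕ → Γ) (C : Subgroup Γ) (q : ℕ) (c : ℕ × Bool) (M : Wd)
    (h : Real r C c M) (hU : c.1 ≤ q) (x : ℤ) :
    tr q x M = tr q x [c] ∧ ax M = ax [c] := by
  rcases h with ⟨-, rfl⟩ | ⟨h0, M₁, M₂, rfl, h1, h2, a1, a2, -⟩
  · exact ⟨rfl, rfl⟩
  · constructor
    · rw [tr_append, a1, add_zero, tr_none q x M₁ (fun p hp => lt_of_lt_of_le (h1 p hp) hU),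
        List.nil_append, show c :: M₂ = [c] ++ M₂ from rfl, tr_append,
        tr_none q _ M₂ (fun p hp => lt_of_lt_of_le (h2 p hp) hU), List.append_nil]
    · rw [ax_append, ax_cons, a1, a2, ax_cons, ax_nil]
      ring

theorem tr_reals (r : ℕ → Γ) (C : Subgroup Γ) (q : ℕ) (U L : Wd) (h : Reals r C U L)
    (hU : ∀ p ∈ U, p.1 ≤ q) (_hq : 1 ≤ q) (x : ℤ) : tr q x L = tr q x U ∧ ax L = ax U := by
  obtain ⟨Ls, rfl, hF⟩ := h
  induction hF generalizing x with
  | nil => exact ⟨rfl, rfl⟩
  | @cons c M U' Ls' hc hF ih =>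
    obtain ⟨i1, i2⟩ := tr_real r C q c M hc (hU c List.mem_cons_self) x
    have hU' : ∀ p ∈ U', p.1 ≤ q := fun p hp => hU p (List.mem_cons_of_mem _ hp)
    constructor
    · rw [List.flatten_cons, tr_append, i1, i2, (ih hU' _).1,
        show c :: U' = [c] ++ U' from rfl, tr_append]
    · rw [List.flatten_cons, ax_append, i2, (ih hU' x).2, show c :: U' = [c] ++ U' from rfl,
        ax_append]

lemma ev_append (r : ℕ → Γ) (L M : Wd) : ev r (L ++ M) = ev r L * ev r M := by
  simp [ev]

lemma ev_cons (r : ℕ → Γ) (p : ℕ × Bool) (L : Wd) : ev r (p :: L) = ev1 r p * ev r L := by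
  simp [ev]

lemma ev_nil (r : ℕ → Γ) : ev r [] = 1 := rfl

lemma ev_real (r : ℕ → Γ) (C : Subgroup Γ) (hC : C ≤ Subgroup.center Γ) (c : ℕ × Bool) (M : Wd)
    (h : Real r C c M) : ev (svl r) M = ev1 r c := by
  obtain ⟨l, s⟩ := c
  rcases h with ⟨h0, rfl⟩ | ⟨h0, M₁, M₂, rfl, h1, h2, a1, a2, h3⟩
  · change l = 0 at h0
    subst h0
    rw [ev_cons, ev_nil, mul_one]
    simp [ev1, svl]
  · change 1 ≤ l at h0
    obtain ⟨k, rfl⟩ := Nat.exists_eq_add_of_le' h0
    rw [ev_append, ev_cons]
    rcases h3 with ⟨hs, hc, he⟩ | ⟨hs, hc, he⟩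
    · change s = true at hs
      subst hs
      change ev (svl r) M₁ * stk r k * ev (svl r) M₂ = 1 at he
      have h4 := Subgroup.mem_center_iff.1 (hC hc) (r (k + 1))
      have h5 : ev1 (svl r) (k + 1, true) = r (k + 1) * stk r k := by
        simp [ev1, svl, stk]
      have h6 : ev1 r (k + 1, true) = r (k + 1) := by simp [ev1]
      rw [h5, h6]
      calc ev (svl r) M₁ * (r (k + 1) * stk r k * ev (svl r) M₂)
          = (ev (svl r) M₁ * r (k + 1)) * stk r k * ev (svl r) M₂ := by group
        _ = r (k + 1) * (ev (svl r) M₁ * stk r k * ev (svl r) M₂) := by rw [← h4]; group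
        _ = r (k + 1) := by rw [he, mul_one]
    · change s = false at hs
      subst hs
      change ev (svl r) M₁ * (stk r k)⁻¹ * ev (svl r) M₂ = 1 at he
      have h4 := Subgroup.mem_center_iff.1 (hC hc) (r (k + 1))⁻¹
      have h5 : ev1 (svl r) (k + 1, false) = (stk r k)⁻¹ * (r (k + 1))⁻¹ := by
        simp [ev1, svl, stk]
      have h6 : ev1 r (k + 1, false) = (r (k + 1))⁻¹ := by simp [ev1]
      rw [h5, h6]
      calc ev (svl r) M₁ * ((stk r k)⁻¹ * (r (k + 1))⁻¹ * ev (svl r) M₂)
          = ev (svl r) M₁ * (stk r k)⁻¹ * ((r (k + 1))⁻¹ * ev (svl r) M₂) := by group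
        _ = (ev (svl r) M₁ * (stk r k)⁻¹ * ev (svl r) M₂) * (r (k + 1))⁻¹ := by rw [h4]; group
        _ = (r (k + 1))⁻¹ := by rw [he, one_mul]

theorem ev_reals (r : ℕ → Γ) (C : Subgroup Γ) (hC : C ≤ Subgroup.center Γ) (U L : Wd)
    (h : Reals r C U L) : ev (svl r) L = ev r U := by
  obtain ⟨Ls, rfl, hF⟩ := h
  induction hF with
  | nil => rfl
  | @cons c M U' Ls' hc hF ih =>
    rw [List.flatten_cons, ev_append, ev_real r C hC c M hc, ih, ev_cons]

end

/-! ### Raised letters -/

theorem rs_length (q : ℕ) (Z : ℕ → Prop) [DecidablePred Z] (t : ℕ) (L : Wd) :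
    (rs q Z t L).length = L.length := by
  induction L generalizing t with
  | nil => rfl
  | cons p L ih =>
    rw [rs]
    split_ifs <;> simp [ih]

theorem rs_append (q : ℕ) (Z : ℕ → Prop) [DecidablePred Z] (t : ℕ) (L₁ L₂ : Wd) :
    rs q Z t (L₁ ++ L₂) = rs q Z t L₁ ++ rs q Z (t + nT L₁ q) L₂ := by
  induction L₁ generalizing t with
  | nil => rw [nT_nil]; rfl
  | cons p L₁ ih =>
    rw [List.cons_append, rs, rs, ih, ih, nT_cons]
    by_cases hp : p.1 = q
    · rw [if_pos hp, if_pos hp, if_pos hp, List.cons_append, add_assoc, add_comm 1 (nT L₁ q)]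
    · rw [if_neg hp, if_neg hp, if_neg hp, List.cons_append, add_zero]

lemma rs_getElem? (q : ℕ) (Z : ℕ → Prop) [DecidablePred Z] (t : ℕ) (L : Wd) (i : ℕ) :
    (rs q Z t L)[i]? = (L[i]?).map (fun p =>
      if p.1 = q ∧ Z (t + Nat.count (isT L q) i) then (q + 1, p.2) else p) := by
  induction L generalizing t i with
  | nil => simp [rs]
  | cons p L ih =>
    have h0 : isT (p :: L) q 0 ↔ p.1 = q := by unfold isT; simp
    have h1 : ∀ j, Nat.count (isT (p :: L) q) (j + 1) =
        Nat.count (isT L q) j + (if p.1 = q then 1 else 0) := by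
      intro j
      rw [Nat.count_succ']
      have h1 : Nat.count (fun k => isT (p :: L) q (k + 1)) j = Nat.count (isT L q) j := by
        apply count_congr
        intro i _
        unfold isT
        rw [List.getElem?_cons_succ]
      rw [h1]
      simp only [h0]
    cases i with
    | zero =>
      rw [rs, Nat.count_zero, add_zero]
      by_cases hp : p.1 = q
      · rw [if_pos hp]
        by_cases hz : Z t
        · simp [hp, hz]
        · simp [hz]
      · rw [if_neg hp]
        simp [hp]
    | succ i =>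
      rw [rs, h1]
      by_cases hp : p.1 = q
      · rw [if_pos hp, if_pos hp, List.getElem?_cons_succ, List.getElem?_cons_succ, ih,
          add_assoc, add_comm 1]
      · rw [if_neg hp, if_neg hp, List.getElem?_cons_succ, List.getElem?_cons_succ, ih, add_zero]

theorem glue_rs (L : Wd) (q : ℕ) (π c : ℕ → ℕ) (hG : Glue L π c) (Z : ℕ → Prop)
    [DecidablePred Z] (hZ : ∀ t < nT L q, Z t ↔ Z (tau L q π t)) :
    Glue (rs q Z 0 L) π c := by
  refine ⟨?_, ?_, ?_, ?_, ?_⟩
  · rw [rs_length]; exact hG.lt
  · rw [rs_length]; exact hG.inv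
  · rw [rs_length]
    intro i hi
    have h1 := hG.lab i hi
    rw [rs_getElem?, rs_getElem?, h1, List.getElem?_eq_getElem hi, Option.map_some,
      Option.map_some, Option.map_some, Option.map_some, zero_add, zero_add]
    by_cases hp : (L[i]).1 = q
    · have h2 : isT L q i := by
        unfold isT
        rw [List.getElem?_eq_getElem hi, Option.map_some, hp]
      have h3 := hZ _ (count_lt h2)
      unfold tau at h3
      rw [ps_count h2] at h3
      by_cases hz : Z (Nat.count (isT L q) i)
      · rw [if_pos ⟨hp, h3.1 hz⟩, if_pos ⟨hp, hz⟩]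
        rfl
      · rw [if_neg (fun h => hz (h3.2 h.2)), if_neg (fun h => hz h.2)]
    · rw [if_neg (fun h => hp h.1), if_neg (fun h => hp h.1)]
  · rw [rs_length]; exact hG.cyc
  · rw [rs_length]; exact hG.col

end H55CD
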