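import Pool.Agent.Helper96.CD.Raise

/-!
MP_cd7e06_al, odd exponents: signs and heights of the letters in the blocks.
-/

set_option autoImplicit false

namespace H96CD

open H74CL H55CD

/-- the trace of `n` periods with two letters each -/
lemma tr_rep (q : ℕ) (v : Wd) (hv : ax v = 0) (a b : ℤ → Bool × ℤ)
    (h : ∀ x, tr q x v = [a x, b x]) (n : ℕ) (x : ℤ) :
    tr q x (List.replicate n v).flatten =
      (List.range (2 * n)).map (fun i => if i % 2 = 0 then a x else b x) := by
  induction n with
  | zero => rfl
  | succ n ih =>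
    rw [List.replicate_succ', List.flatten_append, tr_append, ih, ax_replicate n v hv, add_zero,
      show 2 * (n + 1) = 2 * n + 1 + 1 by ring, List.range_succ, List.range_succ]
    simp only [List.flatten_cons, List.flatten_nil, List.append_nil, List.map_append,
      List.map_cons, List.map_nil, List.append_assoc, h]
    rw [if_pos (by omega), if_neg (by omega)]
    rfl

lemma tr_per (q : ℕ) (hq : 1 ≤ q) (A B : Wd) (ε : Bool) (hA : ∀ p ∈ A, p.1 < q)
    (hB : ∀ p ∈ B, p.1 < q) (axA : ax A = 1) (x : ℤ) :
    tr q x (per q A B ε) = [(true, x), (ε, x + 1)] := by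
  have h1 : ∀ s, al (q, s) = 0 := by
    intro s
    unfold al
    rw [if_neg (show ¬ (q = 0) by omega)]
  unfold per
  rw [tr_append, tr, if_pos rfl, tr_none q _ A hA, tr, if_pos rfl, tr_none q _ B hB, ax_cons, h1,
    axA]
  simp

lemma tr_per_inv (q : ℕ) (hq : 1 ≤ q) (A B : Wd) (ε : Bool) (hA : ∀ p ∈ A, p.1 < q)
    (hB : ∀ p ∈ B, p.1 < q) (axA : ax A = 1) (axB : ax B = -1) (x : ℤ) :
    tr q x (FreeGroup.invRev (per q A B ε)) = [(!ε, x + 1), (false, x)] := by
  have h1 : ∀ s, al (q, s) = 0 := by
    intro s
    unfold al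
    rw [if_neg (show ¬ (q = 0) by omega)]
  rw [invRev_per, tr_append, tr_append, tr_none q _ _ (invRev_lt hB), tr, if_pos rfl,
    tr_none q _ _ (invRev_lt hA), tr, if_pos rfl, ax_append, ax_cons, h1, ax_invRev, ax_invRev,
    axA, axB]
  simp [tr]

section
variable {Γ : Type*} [Group Γ]

lemma sub_le (q n : ℕ) (A B : Wd) (ε : Bool) (hA : ∀ p ∈ A, p.1 < q) (hB : ∀ p ∈ B, p.1 < q)
    (c : ℕ × Bool) (hc : c.1 ≤ q + 1) : ∀ p ∈ sub q n (per q A B ε) c, p.1 ≤ q := by
  have hlev : ∀ p ∈ per q A B ε, p.1 ≤ q := by
    intro p hp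
    rw [per, List.mem_append, List.mem_cons, List.mem_cons] at hp
    rcases hp with (rfl | hp) | rfl | hp
    · exact le_rfl
    · exact (hA p hp).le
    · exact le_rfl
    · exact (hB p hp).le
  intro p hp
  unfold sub at hp
  by_cases hcq : c.1 = q + 1
  · rw [if_pos hcq, List.mem_flatten] at hp
    obtain ⟨l, hl, hp⟩ := hp
    rw [List.mem_replicate] at hl
    rw [hl.2] at hp
    by_cases hs : c.2 = true
    · rw [if_pos hs] at hp
      exact hlev p hp
    · rw [if_neg hs] at hp
      obtain ⟨p', h3, h4⟩ := mem_invRev hp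
      rw [← h4]
      exact hlev p' h3
  · rw [if_neg hcq, List.mem_singleton] at hp
    rw [hp]
    omega

lemma nT_sub (q n : ℕ) (A B : Wd) (ε : Bool) (hA : ∀ p ∈ A, p.1 < q) (hB : ∀ p ∈ B, p.1 < q)
    (c : ℕ × Bool) : nT (sub q n (per q A B ε) c) q =
      if c.1 = q + 1 then 2 * n else if c.1 = q then 1 else 0 := by
  unfold sub
  by_cases hcq : c.1 = q + 1
  · rw [if_pos hcq, if_pos hcq, nT_replicate]
    by_cases hs : c.2 = true
    · rw [if_pos hs, nT_per q A B ε hA hB, mul_comm]
    · rw [if_neg hs, nT_per_inv q A B ε hA hB, mul_comm]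
  · rw [if_neg hcq, if_neg hcq, nT_single]

lemma off_succ (q n : ℕ) (v U : Wd) (j : ℕ) (c : ℕ × Bool) (hj : U[j]? = some c) :
    off q n v U (j + 1) = off q n v U j + nT (sub q n v c) q := by
  unfold off
  have h1 : U.take (j + 1) = U.take j ++ [c] := by
    rw [List.take_add_one, hj]
    rfl
  rw [h1, List.flatMap_append, nT_append]
  simp

lemma off_mono (q n : ℕ) (v U : Wd) {i j : ℕ} (h : i ≤ j) :
    off q n v U i ≤ off q n v U j := by
  unfold off
  have h1 : U.take j = U.take i ++ (U.drop i).take (j - i) := by
    rw [← List.take_add, show i + (j - i) = j by omega]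
  rw [h1, List.flatMap_append, nT_append]
  omega

lemma off_length (q n : ℕ) (v U : Wd) :
    off q n v U U.length = nT (U.flatMap (sub q n v)) q := by
  unfold off
  rw [List.take_length]

lemma tr_getElem? (q n : ℕ) (v U : Wd) (j : ℕ) (c : ℕ × Bool) (hj : U[j]? = some c) (i : ℕ)
    (hi : i < nT (sub q n v c) q) :
    (tr q 0 (U.flatMap (sub q n v)))[off q n v U j + i]? =
      (tr q (ax ((U.take j).flatMap (sub q n v))) (sub q n v c))[i]? := by
  have h1 : U = U.take j ++ (c :: U.drop (j + 1)) := by
    have hjl : j < U.length := by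
      by_contra h
      rw [List.getElem?_eq_none (by omega)] at hj
      simp at hj
    have h2 : U[j] = c := by
      rw [List.getElem?_eq_getElem hjl] at hj
      exact Option.some.inj hj
    conv_lhs => rw [← List.take_append_drop j U]
    rw [List.drop_eq_getElem_cons hjl, h2]
  conv_lhs => rw [h1]
  rw [List.flatMap_append, List.flatMap_cons, tr_append, tr_append, zero_add]
  have h2 : (tr q 0 ((U.take j).flatMap (sub q n v))).length = off q n v U j := by
    rw [tr_length]; rfl
  have h3 : off q n v (U.take j ++ (c :: U.drop (j + 1))) j = off q n v U j := by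
    rw [← h1]
  rw [h3, List.getElem?_append_right (by omega), h2, Nat.add_sub_cancel_left,
    List.getElem?_append_left (by rw [tr_length]; exact hi)]

/-- letters in the blocks -/
lemma block_letters (r : ℕ → Γ) (C : Subgroup Γ) (q : ℕ) (hq : 1 ≤ q) (A B : Wd) (ε : Bool)
    (hA : ∀ p ∈ A, p.1 < q) (hB : ∀ p ∈ B, p.1 < q) (axA : ax A = 1) (axB : ax B = -1) (n : ℕ)
    (U : Wd) (hU : ∀ p ∈ U, p.1 ≤ q + 1) (L : Wd)
    (hL : Reals r C (U.flatMap (sub q n (per q A B ε))) L) (j : ℕ) (b : Bool)
    (hj : U[j]? = some (q + 1, b)) (i : ℕ) (hi : i < 2 * n) :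
    off q n (per q A B ε) U j + i < nT L q ∧
    (sg L q (off q n (per q A B ε) U j + i), hh L q (off q n (per q A B ε) U j + i)) =
      (if b = true then
        (if i % 2 = 0 then (true, ax ((U.take j).flatMap (sub q n (per q A B ε))))
          else (ε, ax ((U.take j).flatMap (sub q n (per q A B ε))) + 1))
       else
        (if i % 2 = 0 then (!ε, ax ((U.take j).flatMap (sub q n (per q A B ε))) + 1)
          else (false, ax ((U.take j).flatMap (sub q n (per q A B ε)))))) := by
  set v := per q A B ε with hvdef
  have hle : ∀ p ∈ U.flatMap (sub q n v), p.1 ≤ q := by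
    intro p hp
    rw [List.mem_flatMap] at hp
    obtain ⟨c, hc, hp⟩ := hp
    exact sub_le q n A B ε hA hB c (hU c hc) p hp
  have hnT : nT L q = nT (U.flatMap (sub q n v)) q := nT_reals hL hle hq
  have hjl : j < U.length := by
    by_contra h
    rw [List.getElem?_eq_none (by omega)] at hj
    simp at hj
  have hns : nT (sub q n v (q + 1, b)) q = 2 * n := by
    rw [nT_sub q n A B ε hA hB]
    simp
  have hlt : off q n v U j + i < nT L q := by
    have h1 := off_succ q n v U j _ hj
    have h2 := off_mono q n v U (show j + 1 ≤ U.length by omega)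
    rw [off_length, ← hnT, h1, hns] at h2
    omega
  refine ⟨hlt, ?_⟩
  have h1 := tr_spec q L
  rw [(tr_reals r C q _ L hL hle hq 0).1] at h1
  have h2 := tr_getElem? q n v U j _ hj i (by rw [hns]; exact hi)
  rw [h1, List.getElem?_map, List.getElem?_range hlt, Option.map_some] at h2
  have hax := ax_per q hq A B ε axA axB
  set x := ax ((U.take j).flatMap (sub q n v)) with hx
  have h3 : tr q x (sub q n v (q + 1, b)) = (List.range (2 * n)).map (fun i =>
      (if b = true then (if i % 2 = 0 then (true, x) else (ε, x + 1))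
       else (if i % 2 = 0 then (!ε, x + 1) else (false, x)))) := by
    unfold sub
    rw [if_pos rfl]
    by_cases hb : b = true
    · simp only [hb, if_true]
      exact tr_rep q v hax (fun x => (true, x)) (fun x => (ε, x + 1))
        (fun x => tr_per q hq A B ε hA hB axA x) n x
    · simp only [hb]
      exact tr_rep q (FreeGroup.invRev v) (by rw [ax_invRev, hax, neg_zero])
        (fun x => (!ε, x + 1)) (fun x => (false, x))
        (fun x => tr_per_inv q hq A B ε hA hB axA axB x) n x
  rw [h3, List.getElem?_map, List.getElem?_range hi, Option.map_some] at h2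
  exact Option.some.inj h2

/-- the block of a letter of index `q` -/
lemma seg_ex (q n : ℕ) (v U : Wd) (t : ℕ) (ht : t < off q n v U U.length) :
    ∃ j < U.length, off q n v U j ≤ t ∧ t < off q n v U (j + 1) := by
  have h0 : off q n v U 0 = 0 := by
    unfold off
    rw [List.take_zero, List.flatMap_nil, nT_nil]
  have key : ∀ m, t < off q n v U m → ∃ j < m, off q n v U j ≤ t ∧ t < off q n v U (j + 1) := by
    intro m
    induction m with
    | zero => intro h; omega
    | succ m ih =>
      intro h
      by_cases h1 : t < off q n v U m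
      · obtain ⟨j, hj, h2⟩ := ih h1
        exact ⟨j, by omega, h2⟩
      · exact ⟨m, by omega, by omega, h⟩
  exact key _ ht

/-- all the data of the blocks -/
theorem block_data (r : ℕ → Γ) (C : Subgroup Γ) (q : ℕ) (hq : 1 ≤ q) (A B : Wd) (ε : Bool)
    (hA : ∀ p ∈ A, p.1 < q) (hB : ∀ p ∈ B, p.1 < q) (axA : ax A = 1) (axB : ax B = -1) (n : ℕ)
    (U : Wd) (hU : ∀ p ∈ U, p.1 ≤ q + 1) (L : Wd)
    (hL : Reals r C (U.flatMap (sub q n (per q A B ε))) L) (J : Finset ℕ)
    (hJ : J = (Finset.range U.length).filter (isT U (q + 1))) (o : ℕ → ℕ)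
    (ho : o = off q n (per q A B ε) U) :
    (∀ j ∈ J, o j + 2 * n ≤ nT L q) ∧
    (∀ i ∈ J, ∀ j ∈ J, i < j → o i + 2 * n ≤ o j) ∧
    (∀ j ∈ J, sgn' U j = true → ∀ k < n, sg L q (o j + 2 * k) = true ∧
      sg L q (o j + 2 * k + 1) = ε ∧ hh L q (o j + 2 * k + 1) = hh L q (o j + 2 * k) + 1 ∧
      (k + 1 < n → hh L q (o j + 2 * k + 2) = hh L q (o j + 2 * k + 1) - 1)) ∧
    (∀ j ∈ J, sgn' U j = false → ∀ k < n, sg L q (o j + 2 * k) = !ε ∧
      sg L q (o j + 2 * k + 1) = false ∧ hh L q (o j + 2 * k + 1) = hh L q (o j + 2 * k) - 1 ∧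
      (k + 1 < n → hh L q (o j + 2 * k + 2) = hh L q (o j + 2 * k + 1) + 1)) ∧
    nT L q ≤ 2 * n * J.card + U.length ∧ J.card ≤ U.length ∧
    ((Finset.range (nT L q)).filter (fun t =>
      sg L q ((t + 1) % nT L q) ≠ sg L q t ∧
      hh L q ((t + 1) % nT L q) = hh L q t)).card ≤ U.length := by
  classical
  subst hJ ho
  set v := per q A B ε with hvdef
  have hle : ∀ p ∈ U.flatMap (sub q n v), p.1 ≤ q := by
    intro p hp
    rw [List.mem_flatMap] at hp
    obtain ⟨c, hc, hp⟩ := hp
    exact sub_le q n A B ε hA hB c (hU c hc) p hp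
  have hnT : nT L q = off q n v U U.length := by
    rw [off_length]
    exact nT_reals hL hle hq
  have hJmem : ∀ j ∈ (Finset.range U.length).filter (isT U (q + 1)),
      j < U.length ∧ U[j]? = some (q + 1, sgn' U j) := by
    intro j hj
    rw [Finset.mem_filter, Finset.mem_range] at hj
    obtain ⟨h1, h2⟩ := hj
    refine ⟨h1, ?_⟩
    unfold isT at h2
    unfold sgn'
    rw [List.getElem?_eq_getElem h1] at h2 ⊢
    simp only [Option.map_some, Option.some.injEq, Option.getD_some] at h2 ⊢
    exact Prod.ext h2 rfl
  have hns : ∀ b, nT (sub q n v (q + 1, b)) q = 2 * n := by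
    intro b
    rw [nT_sub q n A B ε hA hB]
    simp
  have hstep : ∀ j ∈ (Finset.range U.length).filter (isT U (q + 1)),
      off q n v U j + 2 * n = off q n v U (j + 1) := by
    intro j hj
    rw [off_succ q n v U j _ (hJmem j hj).2, hns]
  have hlet := block_letters r C q hq A B ε hA hB axA axB n U hU L hL
  refine ⟨?_, ?_, ?_, ?_, ?_, ?_, ?_⟩
  · intro j hj
    rw [hstep j hj, hnT]
    exact off_mono q n v U (by have := (hJmem j hj).1; omega)
  · intro i hi j _ hij
    rw [hstep i hi]
    exact off_mono q n v U (by omega)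
  · intro j hj hs k hk
    obtain ⟨-, hj2⟩ := hJmem j hj
    rw [hs] at hj2
    obtain ⟨-, e0⟩ := hlet j true hj2 (2 * k) (by omega)
    obtain ⟨-, e1⟩ := hlet j true hj2 (2 * k + 1) (by omega)
    rw [if_pos rfl, if_pos (by omega)] at e0
    rw [if_pos rfl, if_neg (by omega), ← add_assoc] at e1
    have f0 := congrArg Prod.fst e0
    have f1 := congrArg Prod.fst e1
    have g0 := congrArg Prod.snd e0
    have g1 := congrArg Prod.snd e1
    simp only at f0 f1 g0 g1
    refine ⟨f0, f1, by rw [g0, g1], fun hk1 => ?_⟩
    obtain ⟨-, e2⟩ := hlet j true hj2 (2 * k + 2) (by omega)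
    rw [if_pos rfl, if_pos (by omega), ← add_assoc] at e2
    have g2 := congrArg Prod.snd e2
    simp only at g2
    rw [g2, g1]
    ring
  · intro j hj hs k hk
    obtain ⟨-, hj2⟩ := hJmem j hj
    rw [hs] at hj2
    obtain ⟨-, e0⟩ := hlet j false hj2 (2 * k) (by omega)
    obtain ⟨-, e1⟩ := hlet j false hj2 (2 * k + 1) (by omega)
    rw [if_neg (by simp), if_pos (by omega)] at e0
    rw [if_neg (by simp), if_neg (by omega), ← add_assoc] at e1
    have f0 := congrArg Prod.fst e0
    have f1 := congrArg Prod.fst e1
    have g0 := congrArg Prod.snd e0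
    have g1 := congrArg Prod.snd e1
    simp only at f0 f1 g0 g1
    refine ⟨f0, f1, by rw [g0, g1]; ring, fun hk1 => ?_⟩
    obtain ⟨-, e2⟩ := hlet j false hj2 (2 * k + 2) (by omega)
    rw [if_neg (by simp), if_pos (by omega), ← add_assoc] at e2
    have g2 := congrArg Prod.snd e2
    simp only at g2
    rw [g2, g1]
  · -- the number of letters
    rw [hnT]
    have key : ∀ m ≤ U.length, off q n v U m ≤
        2 * n * ((Finset.range m).filter (isT U (q + 1))).card + m := by
      intro m
      induction m with
      | zero =>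
        intro _
        unfold off
        rw [List.take_zero, List.flatMap_nil, nT_nil]
        omega
      | succ m ih =>
        intro hm
        have h1 := ih (by omega)
        have h2 : U[m]? = some U[m] := List.getElem?_eq_getElem (by omega)
        rw [off_succ q n v U m _ h2, nT_sub q n A B ε hA hB, Finset.range_add_one,
          Finset.filter_insert]
        by_cases h3 : U[m].1 = q + 1
        · have h4 : isT U (q + 1) m := by
            unfold isT
            rw [h2, Option.map_some, h3]
          rw [if_pos h3, if_pos h4, Finset.card_insert_of_notMem (by simp)]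
          have : 2 * n * (((Finset.range m).filter (isT U (q + 1))).card + 1) =
            2 * n * ((Finset.range m).filter (isT U (q + 1))).card + 2 * n := by ring
          omega
        · have h4 : ¬ isT U (q + 1) m := by
            unfold isT
            rw [h2, Option.map_some]
            intro h
            exact h3 (Option.some.inj h)
          rw [if_neg h3, if_neg h4]
          split_ifs <;> omega
    exact key _ le_rfl
  · exact (Finset.card_filter_le _ _).trans (by rw [Finset.card_range])
  · -- gaps of height zero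
    have hsub : ((Finset.range (nT L q)).filter (fun t =>
        sg L q ((t + 1) % nT L q) ≠ sg L q t ∧
        hh L q ((t + 1) % nT L q) = hh L q t)) ⊆
        (Finset.range U.length).image (fun j => off q n v U (j + 1) - 1) := by
      intro t ht
      rw [Finset.mem_filter, Finset.mem_range] at ht
      obtain ⟨ht, -, hz⟩ := ht
      obtain ⟨j, hj, h1, h2⟩ := seg_ex q n v U t (by rw [← hnT]; exact ht)
      rw [Finset.mem_image]
      refine ⟨j, Finset.mem_range.2 hj, ?_⟩
      by_contra hne
      have h3 : U[j]? = some U[j] := List.getElem?_eq_getElem hj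
      have h4 := off_succ q n v U j _ h3
      rw [nT_sub q n A B ε hA hB] at h4
      by_cases h5 : U[j].1 = q + 1
      · rw [if_pos h5] at h4
        have h6 : U[j]? = some (q + 1, U[j].2) := by
          rw [h3]
          exact congrArg some (Prod.ext h5 rfl)
        have h7 : t + 1 < off q n v U (j + 1) := by omega
        have h8 : t + 1 < nT L q := by
          rw [hnT]
          exact lt_of_lt_of_le h7 (off_mono q n v U (by omega))
        rw [Nat.mod_eq_of_lt h8] at hz
        obtain ⟨-, e0⟩ := hlet j _ h6 (t - off q n v U j) (by omega)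
        obtain ⟨-, e1⟩ := hlet j _ h6 (t + 1 - off q n v U j) (by omega)
        rw [show off q n v U j + (t - off q n v U j) = t by omega] at e0
        rw [show off q n v U j + (t + 1 - off q n v U j) = t + 1 by omega] at e1
        have fin : ∀ (x y : Bool × ℤ), (sg L q t, hh L q t) = x →
            (sg L q (t + 1), hh L q (t + 1)) = y → x.2 ≠ y.2 → False := by
          intro x y hx hy hxy
          apply hxy
          rw [← hx, ← hy]
          exact hz.symm
        rcases Nat.mod_two_eq_zero_or_one (t - off q n v U j) with h9 | h9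
        · have h10 : ¬ (t + 1 - off q n v U j) % 2 = 0 := by omega
          cases hb : U[j].2
          · rw [hb, if_neg (by simp), if_pos h9] at e0
            rw [hb, if_neg (by simp), if_neg h10] at e1
            exact fin _ _ e0 e1 (by simp)
          · rw [hb, if_pos rfl, if_pos h9] at e0
            rw [hb, if_pos rfl, if_neg h10] at e1
            exact fin _ _ e0 e1 (by simp)
        · have h10 : (t + 1 - off q n v U j) % 2 = 0 := by omega
          have h9' : ¬ (t - off q n v U j) % 2 = 0 := by omega
          cases hb : U[j].2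
          · rw [hb, if_neg (by simp), if_neg h9'] at e0
            rw [hb, if_neg (by simp), if_pos h10] at e1
            exact fin _ _ e0 e1 (by simp)
          · rw [hb, if_pos rfl, if_neg h9'] at e0
            rw [hb, if_pos rfl, if_pos h10] at e1
            exact fin _ _ e0 e1 (by simp)
      · rw [if_neg h5] at h4
        split_ifs at h4 <;> omega
    exact (Finset.card_le_card hsub).trans (Finset.card_image_le.trans (by rw [Finset.card_range]))

end

end H96CD
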