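import Pool.Agent.Helper96.CD.Trace

/-!
MP_cd7e06_al, odd exponents: versions of lists, and the raising of one letter in every block.
-/

set_option autoImplicit false

namespace H96CD

open H74CL H55CD

/-! ### inverse lists -/

lemma invRev_append (L M : Wd) :
    FreeGroup.invRev (L ++ M) = FreeGroup.invRev M ++ FreeGroup.invRev L := by
  simp [FreeGroup.invRev]

lemma invRev_cons (p : ℕ × Bool) (M : Wd) :
    FreeGroup.invRev (p :: M) = FreeGroup.invRev M ++ [(p.1, !p.2)] := by
  simp [FreeGroup.invRev]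

lemma al_not (l : ℕ) (s : Bool) : al (l, !s) = - al (l, s) := by
  unfold al
  by_cases h : l = 0
  · cases s <;> simp [h]
  · simp [h]

lemma ax_invRev (L : Wd) : ax (FreeGroup.invRev L) = - ax L := by
  induction L with
  | nil => simp [FreeGroup.invRev, ax]
  | cons p L ih =>
    rw [invRev_cons, ax_append, ih, ax_cons, ax_cons, ax_nil, al_not]
    ring

lemma mem_invRev {L : Wd} {p : ℕ × Bool} (h : p ∈ FreeGroup.invRev L) : ∃ p' ∈ L, p'.1 = p.1 := by
  unfold FreeGroup.invRev at h
  rw [List.mem_reverse, List.mem_map] at h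
  obtain ⟨p', h1, rfl⟩ := h
  exact ⟨p', h1, rfl⟩

lemma invRev_lt {L : Wd} {q : ℕ} (h : ∀ p ∈ L, p.1 < q) : ∀ p ∈ FreeGroup.invRev L, p.1 < q := by
  intro p hp
  obtain ⟨p', h1, h2⟩ := mem_invRev hp
  rw [← h2]
  exact h p' h1

lemma invRev_per (q : ℕ) (A B : Wd) (ε : Bool) :
    FreeGroup.invRev (per q A B ε) =
      FreeGroup.invRev B ++ (q, !ε) :: FreeGroup.invRev A ++ [(q, false)] := by
  unfold per
  rw [List.cons_append, invRev_cons, invRev_append, invRev_cons]
  simp

section
variable {Γ : Type*} [Group Γ]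

lemma ev_invRev (r : ℕ → Γ) (L : Wd) : ev r (FreeGroup.invRev L) = (ev r L)⁻¹ := by
  induction L with
  | nil => simp [FreeGroup.invRev, ev]
  | cons p L ih =>
    rw [invRev_cons, ev_append, ih, ev_cons, ev_cons, ev_nil, mul_inv_rev, mul_one]
    congr 1
    obtain ⟨l, s⟩ := p
    cases s <;> simp [ev1]

lemma ev_replicate (r : ℕ → Γ) (n : ℕ) (v : Wd) :
    ev r (List.replicate n v).flatten = ev r v ^ n := by
  induction n with
  | zero => simp [ev]
  | succ n ih => rw [List.replicate_succ, List.flatten_cons, ev_append, ih, pow_succ']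

lemma ax_replicate (n : ℕ) (v : Wd) (h : ax v = 0) : ax (List.replicate n v).flatten = 0 := by
  induction n with
  | zero => simp [ax]
  | succ n ih => rw [List.replicate_succ, List.flatten_cons, ax_append, ih, h, add_zero]

lemma nT_replicate (n q : ℕ) (v : Wd) :
    nT (List.replicate n v).flatten q = n * nT v q := by
  induction n with
  | zero => simp [nT_nil]
  | succ n ih => rw [List.replicate_succ, List.flatten_cons, nT_append, ih]; ring

lemma nT_zero {L : Wd} {q : ℕ} (h : ∀ p ∈ L, p.1 < q) : nT L q = 0 := by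
  induction L with
  | nil => exact nT_nil q
  | cons p L ih =>
    have h1 := h p List.mem_cons_self
    rw [nT_cons, ih (fun p' hp' => h p' (List.mem_cons_of_mem _ hp')), if_neg (by omega)]

lemma nT_per (q : ℕ) (A B : Wd) (ε : Bool) (hA : ∀ p ∈ A, p.1 < q) (hB : ∀ p ∈ B, p.1 < q) :
    nT (per q A B ε) q = 2 := by
  unfold per
  rw [nT_append, nT_cons, nT_cons, nT_zero hA, nT_zero hB]
  simp

lemma nT_per_inv (q : ℕ) (A B : Wd) (ε : Bool) (hA : ∀ p ∈ A, p.1 < q)
    (hB : ∀ p ∈ B, p.1 < q) : nT (FreeGroup.invRev (per q A B ε)) q = 2 := by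
  rw [invRev_per, nT_append, nT_append, nT_cons, nT_zero (invRev_lt hA), nT_zero (invRev_lt hB),
    nT_single]
  simp

lemma ax_per (q : ℕ) (hq : 1 ≤ q) (A B : Wd) (ε : Bool) (axA : ax A = 1) (axB : ax B = -1) :
    ax (per q A B ε) = 0 := by
  have h1 : ∀ s, al (q, s) = 0 := by
    intro s
    unfold al
    rw [if_neg (show ¬ (q = 0) by omega)]
  unfold per
  rw [ax_append, ax_cons, ax_cons, h1, h1, axA, axB]
  ring

/-! ### versions -/

lemma reals_nil (r : ℕ → Γ) (C : Subgroup Γ) : Reals r C [] [] :=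
  ⟨[], rfl, List.Forall₂.nil⟩

lemma reals_nil_inv {r : ℕ → Γ} {C : Subgroup Γ} {L : Wd} (h : Reals r C [] L) : L = [] := by
  obtain ⟨Ls, rfl, hF⟩ := h
  cases hF
  rfl

lemma reals_cons {r : ℕ → Γ} {C : Subgroup Γ} {c : ℕ × Bool} {U M L : Wd} (h1 : Real r C c M)
    (h2 : Reals r C U L) : Reals r C (c :: U) (M ++ L) := by
  obtain ⟨Ls, rfl, hF⟩ := h2
  exact ⟨M :: Ls, rfl, List.Forall₂.cons h1 hF⟩

lemma reals_cons_inv {r : ℕ → Γ} {C : Subgroup Γ} {c : ℕ × Bool} {U L : Wd}
    (h : Reals r C (c :: U) L) : ∃ M L', L = M ++ L' ∧ Real r C c M ∧ Reals r C U L' := by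
  obtain ⟨Ls, rfl, hF⟩ := h
  cases hF with
  | @cons _ M _ Ls' h1 h2 => exact ⟨M, Ls'.flatten, rfl, h1, Ls', rfl, h2⟩

lemma reals_append {r : ℕ → Γ} {C : Subgroup Γ} {U U' L L' : Wd} (h1 : Reals r C U L)
    (h2 : Reals r C U' L') : Reals r C (U ++ U') (L ++ L') := by
  induction U generalizing L with
  | nil => rw [reals_nil_inv h1]; exact h2
  | cons c U ih =>
    obtain ⟨M, L1, rfl, h3, h4⟩ := reals_cons_inv h1
    rw [List.cons_append, List.append_assoc]
    exact reals_cons h3 (ih h4)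

lemma reals_append_inv {r : ℕ → Γ} {C : Subgroup Γ} {U U' L : Wd} (h : Reals r C (U ++ U') L) :
    ∃ L₁ L₂, L = L₁ ++ L₂ ∧ Reals r C U L₁ ∧ Reals r C U' L₂ := by
  induction U generalizing L with
  | nil => exact ⟨[], L, rfl, reals_nil r C, h⟩
  | cons c U ih =>
    rw [List.cons_append] at h
    obtain ⟨M, L1, rfl, h3, h4⟩ := reals_cons_inv h
    obtain ⟨L2, L3, rfl, h5, h6⟩ := ih h4
    exact ⟨M ++ L2, L3, by rw [List.append_assoc], reals_cons h3 h5, h6⟩

lemma real_le {r : ℕ → Γ} {C : Subgroup Γ} {c : ℕ × Bool} {M : Wd} (h : Real r C c M) :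
    ∀ p ∈ M, p.1 ≤ c.1 := by
  intro p hp
  rcases h with ⟨-, rfl⟩ | ⟨h0, M₁, M₂, rfl, h1, h2, -⟩
  · rw [List.mem_singleton] at hp
    rw [hp]
  · rw [List.mem_append, List.mem_cons] at hp
    rcases hp with hp | rfl | hp
    · exact (h1 p hp).le
    · exact le_rfl
    · exact (h2 p hp).le

lemma reals_le {r : ℕ → Γ} {C : Subgroup Γ} {U L : Wd} {q : ℕ} (h : Reals r C U L)
    (hU : ∀ p ∈ U, p.1 ≤ q) : ∀ p ∈ L, p.1 ≤ q := by
  induction U generalizing L with
  | nil => rw [reals_nil_inv h]; simp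
  | cons c U ih =>
    obtain ⟨M, L1, rfl, h3, h4⟩ := reals_cons_inv h
    intro p hp
    rw [List.mem_append] at hp
    rcases hp with hp | hp
    · exact (real_le h3 p hp).trans (hU c List.mem_cons_self)
    · exact ih h4 (fun p hp => hU p (List.mem_cons_of_mem _ hp)) p hp

lemma tr_length (q : ℕ) (x : ℤ) (L : Wd) : (tr q x L).length = nT L q := by
  induction L generalizing x with
  | nil => rw [nT_nil]; rfl
  | cons p L ih =>
    rw [tr, nT_cons]
    split_ifs
    · rw [List.length_cons, ih]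
    · rw [ih, add_zero]

lemma nT_reals {r : ℕ → Γ} {C : Subgroup Γ} {U L : Wd} {q : ℕ} (h : Reals r C U L)
    (hU : ∀ p ∈ U, p.1 ≤ q) (hq : 1 ≤ q) : nT L q = nT U q := by
  rw [← tr_length q 0 L, ← tr_length q 0 U, (tr_reals r C q U L h hU hq 0).1]

/-! ### raising -/

lemma rs_none (q : ℕ) (Z : ℕ → Prop) [DecidablePred Z] (t : ℕ) (L : Wd)
    (h : ∀ i < nT L q, ¬ Z (t + i)) : rs q Z t L = L := by
  induction L generalizing t with
  | nil => rfl
  | cons p L ih =>
    rw [nT_cons] at h
    rw [rs]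
    by_cases hp : p.1 = q
    · rw [if_pos hp] at h ⊢
      have h0 := h 0 (by omega)
      rw [add_zero] at h0
      rw [if_neg h0, ih (t + 1) (fun i hi => by
        have := h (i + 1) (by omega)
        rwa [add_assoc, add_comm 1 i])]
    · rw [if_neg hp] at h ⊢
      rw [ih t (fun i hi => h i (by omega))]

/-- a letter of index `q` after raising -/
lemma rs_real (q : ℕ) (s : Bool) (Z : ℕ → Prop)
    [DecidablePred Z] (t : ℕ) (M₁ M₂ : Wd) (h1 : ∀ p ∈ M₁, p.1 < q) (h2 : ∀ p ∈ M₂, p.1 < q)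
    (hZ : Z t) : rs q Z t (M₁ ++ (q, s) :: M₂) = M₁ ++ (q + 1, s) :: M₂ := by
  rw [rs_append, rs_none q Z t M₁ (fun i hi => by rw [nT_zero h1] at hi; omega), nT_zero h1,
    add_zero, rs, if_pos rfl, if_pos hZ,
    rs_none q Z (t + 1) M₂ (fun i hi => by rw [nT_zero h2] at hi; omega)]

/-- raising of one letter in a positive block -/
theorem raise_pos (r : ℕ → Γ) (C : Subgroup Γ) (q : ℕ) (hq : 1 ≤ q) (A B : Wd) (ε : Bool)
    (hA : ∀ p ∈ A, p.1 < q) (hB : ∀ p ∈ B, p.1 < q) (axA : ax A = 1) (axB : ax B = -1) (n : ℕ)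
    (hC : C ≤ Subgroup.center Γ) (hv : ev r (per q A B ε) ∈ C)
    (hvn : ev r (per q A B ε) ^ n = 1) (Z : ℕ → Prop) [DecidablePred Z] (t k : ℕ) (hk : k < n)
    (hZ : ∀ i < 2 * n, Z (t + i) ↔ i = 2 * k) (M : Wd)
    (hM : Reals r C (List.replicate n (per q A B ε)).flatten M) :
    Real r C (q + 1, true) (rs q Z t M) := by
  set v := per q A B ε with hvdef
  have hnv := nT_per q A B ε hA hB
  have hsplit : (List.replicate n v).flatten = (List.replicate k v).flatten ++
      ((q, true) :: ((A ++ (q, ε) :: B) ++ (List.replicate (n - k - 1) v).flatten)) := by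
    conv_lhs => rw [show n = k + ((n - k - 1) + 1) by omega]
    rw [List.replicate_add, List.flatten_append, List.replicate_succ, List.flatten_cons]
    rw [hvdef]
    simp [per]
  rw [hsplit] at hM
  obtain ⟨M₀, M', rfl, h0, h'⟩ := reals_append_inv hM
  obtain ⟨Mc, M₃, rfl, hc, h3⟩ := reals_cons_inv h'
  have hle : ∀ p ∈ v, p.1 ≤ q := by
    intro p hp
    rw [hvdef, per, List.mem_append, List.mem_cons, List.mem_cons] at hp
    rcases hp with (rfl | hp) | rfl | hp
    · exact le_rfl
    · exact (hA p hp).le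
    · exact le_rfl
    · exact (hB p hp).le
  have hle0 : ∀ k' : ℕ, ∀ p ∈ (List.replicate k' v).flatten, p.1 ≤ q := by
    intro k' p hp
    rw [List.mem_flatten] at hp
    obtain ⟨l, hl, hp⟩ := hp
    rw [List.mem_replicate] at hl
    rw [hl.2] at hp
    exact hle p hp
  have hle3 : ∀ p ∈ (A ++ (q, ε) :: B) ++ (List.replicate (n - k - 1) v).flatten, p.1 ≤ q := by
    intro p hp
    rw [List.mem_append, List.mem_append, List.mem_cons] at hp
    rcases hp with (hp | rfl | hp) | hp
    · exact (hA p hp).le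
    · exact le_rfl
    · exact (hB p hp).le
    · exact hle0 _ p hp
  have n0 : nT M₀ q = 2 * k := by
    rw [nT_reals h0 (hle0 k) hq, nT_replicate, hnv, mul_comm]
  have n3 : nT M₃ q = 1 + 2 * (n - k - 1) := by
    rw [nT_reals h3 hle3 hq, nT_append, nT_append, nT_cons, nT_zero hA, nT_zero hB,
      nT_replicate, hnv]
    simp
    ring
  obtain ⟨e0, x0⟩ := tr_reals r C q _ _ h0 (hle0 k) hq 0
  obtain ⟨e3, x3⟩ := tr_reals r C q _ _ h3 hle3 hq 0
  have v0 := ev_reals r C hC _ _ h0
  have v3 := ev_reals r C hC _ _ h3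
  rcases hc with ⟨hc0, -⟩ | ⟨-, N₁, N₂, rfl, l1, l2, a1, a2, hcs⟩
  · exact absurd hc0 (by change ¬ q = 0; omega)
  rcases hcs with ⟨-, hc1, hc2⟩ | ⟨hs, -⟩
  swap
  · exact absurd hs (by simp)
  change ∀ p ∈ N₁, p.1 < q at l1
  change ∀ p ∈ N₂, p.1 < q at l2
  change ev (svl r) N₁ * stk r (q - 1) * ev (svl r) N₂ = 1 at hc2
  have nc : nT (N₁ ++ (q, true) :: N₂) q = 1 := by
    rw [nT_append, nT_cons, nT_zero l1, nT_zero l2]; simp
  have hrs : rs q Z t (M₀ ++ ((N₁ ++ (q, true) :: N₂) ++ M₃)) =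
      (M₀ ++ N₁) ++ (q + 1, true) :: (N₂ ++ M₃) := by
    rw [rs_append, rs_append, n0, nc, rs_none q Z t M₀ (fun i hi => by
      rw [hZ i (by omega)]; omega), rs_real q true Z _ N₁ N₂ l1 l2
      ((hZ (2 * k) (by omega)).2 rfl), rs_none q Z _ M₃ (fun i hi => by
      rw [add_assoc, add_assoc, hZ (2 * k + (1 + i)) (by omega)]; omega)]
    simp
  rw [hrs]
  refine Or.inr ⟨by change 1 ≤ q + 1; omega, M₀ ++ N₁, N₂ ++ M₃, rfl, ?_, ?_, ?_, ?_,
    Or.inl ⟨rfl, ?_, ?_⟩⟩
  · intro p hp
    change p.1 < q + 1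
    rw [List.mem_append] at hp
    rcases hp with hp | hp
    · have := reals_le h0 (hle0 k) p hp
      omega
    · have := l1 p hp
      omega
  · intro p hp
    change p.1 < q + 1
    rw [List.mem_append] at hp
    rcases hp with hp | hp
    · have := l2 p hp
      omega
    · have := reals_le h3 hle3 p hp
      omega
  · rw [ax_append, x0, a1, ax_replicate k v (ax_per q hq A B ε axA axB), add_zero]
  · have h1 : al (q, ε) = 0 := by
      unfold al
      rw [if_neg (show ¬ (q = 0) by omega)]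
    rw [ax_append, x3, a2, ax_append, ax_append, ax_cons, h1, axA, axB,
      ax_replicate _ v (ax_per q hq A B ε axA axB)]
    ring
  · rw [ev_append, v0, ev_replicate]
    exact C.mul_mem (C.pow_mem hv k) hc1
  · obtain ⟨q', rfl⟩ := Nat.exists_eq_add_of_le' hq
    change ev (svl r) (M₀ ++ N₁) * stk r (q' + 1) * ev (svl r) (N₂ ++ M₃) = 1
    change ev (svl r) N₁ * stk r q' * ev (svl r) N₂ = 1 at hc2
    have h4 := Subgroup.mem_center_iff.1 (hC hc1) (r (q' + 1))
    have h5 : ev (svl r) N₁ * stk r (q' + 1) * ev (svl r) N₂ = r (q' + 1) := by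
      calc ev (svl r) N₁ * stk r (q' + 1) * ev (svl r) N₂
          = (ev (svl r) N₁ * r (q' + 1)) * stk r q' * ev (svl r) N₂ := by
            rw [stk]; group
        _ = r (q' + 1) * (ev (svl r) N₁ * stk r q' * ev (svl r) N₂) := by rw [← h4]; group
        _ = r (q' + 1) := by rw [hc2, mul_one]
    have h6 : ev r v = r (q' + 1) * ev r (A ++ (q' + 1, ε) :: B) := by
      rw [hvdef, per, List.cons_append, ev_cons]
      simp [ev1]
    calc ev (svl r) (M₀ ++ N₁) * stk r (q' + 1) * ev (svl r) (N₂ ++ M₃)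
        = ev r v ^ k * (ev (svl r) N₁ * stk r (q' + 1) * ev (svl r) N₂) *
          (ev r (A ++ (q' + 1, ε) :: B) * ev r v ^ (n - k - 1)) := by
          rw [ev_append, ev_append, v0, v3, ev_replicate, ev_append, ev_replicate]
          group
      _ = ev r v ^ k * ev r v * ev r v ^ (n - k - 1) := by
          rw [h5, h6]; group
      _ = ev r v ^ n := by
          rw [← pow_succ, ← pow_add]
          congr 1
          omega
      _ = 1 := hvn

/-- raising of one letter in a negative block -/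
theorem raise_neg (r : ℕ → Γ) (C : Subgroup Γ) (q : ℕ) (hq : 1 ≤ q) (A B : Wd) (ε : Bool)
    (hA : ∀ p ∈ A, p.1 < q) (hB : ∀ p ∈ B, p.1 < q) (axA : ax A = 1) (axB : ax B = -1) (n : ℕ)
    (hC : C ≤ Subgroup.center Γ) (hv : ev r (per q A B ε) ∈ C)
    (hvn : ev r (per q A B ε) ^ n = 1) (Z : ℕ → Prop) [DecidablePred Z] (t k : ℕ) (hk : k < n)
    (hZ : ∀ i < 2 * n, Z (t + i) ↔ i = 2 * k + 1) (M : Wd)
    (hM : Reals r C (List.replicate n (FreeGroup.invRev (per q A B ε))).flatten M) :
    Real r C (q + 1, false) (rs q Z t M) := by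
  set v := per q A B ε with hvdef
  set w := FreeGroup.invRev v with hwdef
  have hnw : nT w q = 2 := nT_per_inv q A B ε hA hB
  have hevw : ev r w = (ev r v)⁻¹ := ev_invRev r v
  have haxw : ax w = 0 := by rw [hwdef, ax_invRev, ax_per q hq A B ε axA axB, neg_zero]
  have hw : w = (FreeGroup.invRev B ++ (q, !ε) :: FreeGroup.invRev A) ++ [(q, false)] := by
    rw [hwdef, hvdef, invRev_per]
  set P := FreeGroup.invRev B ++ (q, !ε) :: FreeGroup.invRev A with hP
  have hsplit : (List.replicate n w).flatten = ((List.replicate k w).flatten ++ P) ++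
      ((q, false) :: (List.replicate (n - k - 1) w).flatten) := by
    conv_lhs => rw [show n = k + ((n - k - 1) + 1) by omega]
    rw [List.replicate_add, List.flatten_append, List.replicate_succ, List.flatten_cons]
    conv_lhs => enter [2, 1]; rw [hw]
    simp
  rw [hsplit] at hM
  obtain ⟨M₀, M', rfl, h0, h'⟩ := reals_append_inv hM
  obtain ⟨Mc, M₃, rfl, hc, h3⟩ := reals_cons_inv h'
  have hleP : ∀ p ∈ P, p.1 ≤ q := by
    intro p hp
    rw [hP, List.mem_append, List.mem_cons] at hp
    rcases hp with hp | rfl | hp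
    · exact (invRev_lt hB p hp).le
    · exact le_rfl
    · exact (invRev_lt hA p hp).le
  have hle : ∀ p ∈ w, p.1 ≤ q := by
    intro p hp
    rw [hw, List.mem_append, List.mem_singleton] at hp
    rcases hp with hp | rfl
    · exact hleP p hp
    · exact le_rfl
  have hle3 : ∀ k' : ℕ, ∀ p ∈ (List.replicate k' w).flatten, p.1 ≤ q := by
    intro k' p hp
    rw [List.mem_flatten] at hp
    obtain ⟨l, hl, hp⟩ := hp
    rw [List.mem_replicate] at hl
    rw [hl.2] at hp
    exact hle p hp
  have hle0 : ∀ p ∈ (List.replicate k w).flatten ++ P, p.1 ≤ q := by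
    intro p hp
    rw [List.mem_append] at hp
    rcases hp with hp | hp
    · exact hle3 _ p hp
    · exact hleP p hp
  have nP : nT P q = 1 := by
    rw [hP, nT_append, nT_cons, nT_zero (invRev_lt hA), nT_zero (invRev_lt hB)]
    simp
  have n0 : nT M₀ q = 2 * k + 1 := by
    rw [nT_reals h0 hle0 hq, nT_append, nT_replicate, hnw, nP, mul_comm]
  have n3 : nT M₃ q = 2 * (n - k - 1) := by
    rw [nT_reals h3 (hle3 _) hq, nT_replicate, hnw, mul_comm]
  obtain ⟨e0, x0⟩ := tr_reals r C q _ _ h0 hle0 hq 0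
  obtain ⟨e3, x3⟩ := tr_reals r C q _ _ h3 (hle3 _) hq 0
  have v0 := ev_reals r C hC _ _ h0
  have v3 := ev_reals r C hC _ _ h3
  rcases hc with ⟨hc0, -⟩ | ⟨-, N₁, N₂, rfl, l1, l2, a1, a2, hcs⟩
  · exact absurd hc0 (by change ¬ q = 0; omega)
  rcases hcs with ⟨hs, -⟩ | ⟨-, hc1, hc2⟩
  · exact absurd hs (by simp)
  change ∀ p ∈ N₁, p.1 < q at l1
  change ∀ p ∈ N₂, p.1 < q at l2
  change ev (svl r) N₁ * (stk r (q - 1))⁻¹ * ev (svl r) N₂ = 1 at hc2
  have nc : nT (N₁ ++ (q, false) :: N₂) q = 1 := by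
    rw [nT_append, nT_cons, nT_zero l1, nT_zero l2]; simp
  have hrs : rs q Z t (M₀ ++ ((N₁ ++ (q, false) :: N₂) ++ M₃)) =
      (M₀ ++ N₁) ++ (q + 1, false) :: (N₂ ++ M₃) := by
    rw [rs_append, rs_append, n0, nc, rs_none q Z t M₀ (fun i hi => by
      rw [hZ i (by omega)]; omega), rs_real q false Z _ N₁ N₂ l1 l2
      ((hZ (2 * k + 1) (by omega)).2 rfl), rs_none q Z _ M₃ (fun i hi => by
      rw [add_assoc, add_assoc, hZ (2 * k + 1 + (1 + i)) (by omega)]; omega)]
    simp
  have axP : ax P = 0 := by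
    have h1 : al (q, !ε) = 0 := by
      unfold al
      rw [if_neg (show ¬ (q = 0) by omega)]
    rw [hP, ax_append, ax_cons, h1, ax_invRev, ax_invRev, axA, axB]
    ring
  rw [hrs]
  refine Or.inr ⟨by change 1 ≤ q + 1; omega, M₀ ++ N₁, N₂ ++ M₃, rfl, ?_, ?_, ?_, ?_,
    Or.inr ⟨rfl, ?_, ?_⟩⟩
  · intro p hp
    change p.1 < q + 1
    rw [List.mem_append] at hp
    rcases hp with hp | hp
    · have := reals_le h0 hle0 p hp
      omega
    · have := l1 p hp
      omega
  · intro p hp
    change p.1 < q + 1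
    rw [List.mem_append] at hp
    rcases hp with hp | hp
    · have := l2 p hp
      omega
    · have := reals_le h3 (hle3 _) p hp
      omega
  · rw [ax_append, x0, a1, ax_append, ax_replicate k w haxw, axP]
    ring
  · rw [ax_append, x3, a2, ax_replicate _ w haxw, add_zero]
  · rw [ev_append, v3, ev_replicate, hevw]
    exact C.mul_mem hc1 (C.pow_mem (C.inv_mem hv) _)
  · obtain ⟨q', rfl⟩ := Nat.exists_eq_add_of_le' hq
    change ev (svl r) (M₀ ++ N₁) * (stk r (q' + 1))⁻¹ * ev (svl r) (N₂ ++ M₃) = 1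
    change ev (svl r) N₁ * (stk r q')⁻¹ * ev (svl r) N₂ = 1 at hc2
    have h4 := Subgroup.mem_center_iff.1 (hC hc1) (r (q' + 1))⁻¹
    have h5 : ev (svl r) N₁ * (stk r (q' + 1))⁻¹ * ev (svl r) N₂ = (r (q' + 1))⁻¹ := by
      calc ev (svl r) N₁ * (stk r (q' + 1))⁻¹ * ev (svl r) N₂
          = ev (svl r) N₁ * (stk r q')⁻¹ * ((r (q' + 1))⁻¹ * ev (svl r) N₂) := by
            rw [stk]; group
        _ = (ev (svl r) N₁ * (stk r q')⁻¹ * ev (svl r) N₂) * (r (q' + 1))⁻¹ := by
            rw [h4]; group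
        _ = (r (q' + 1))⁻¹ := by rw [hc2, one_mul]
    have h6 : ev r w = ev r P * (r (q' + 1))⁻¹ := by
      rw [hw, ev_append, ev_cons, ev_nil]
      simp [ev1]
    calc ev (svl r) (M₀ ++ N₁) * (stk r (q' + 1))⁻¹ * ev (svl r) (N₂ ++ M₃)
        = ev r w ^ k * ev r P * (ev (svl r) N₁ * (stk r (q' + 1))⁻¹ * ev (svl r) N₂) *
          ev r w ^ (n - k - 1) := by
          rw [ev_append, ev_append, v0, v3, ev_replicate, ev_append, ev_replicate]
          group
      _ = ev r w ^ k * ev r w * ev r w ^ (n - k - 1) := by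
          rw [h5, mul_assoc (ev r w ^ k) (ev r P), ← h6]
      _ = ev r w ^ n := by
          rw [← pow_succ, ← pow_add]
          congr 1
          omega
      _ = 1 := by rw [hevw, inv_pow, hvn, inv_one]

/-- number of letters of index `q` before the image of the letter number `j` -/
def off (q n : ℕ) (v : Wd) (U : Wd) (j : ℕ) : ℕ := nT ((U.take j).flatMap (sub q n v)) q

/-- raising of one letter in every block -/
theorem raise_all (r : ℕ → Γ) (C : Subgroup Γ) (q : ℕ) (hq : 1 ≤ q) (A B : Wd) (ε : Bool)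
    (hA : ∀ p ∈ A, p.1 < q) (hB : ∀ p ∈ B, p.1 < q) (axA : ax A = 1) (axB : ax B = -1) (n : ℕ)
    (hC : C ≤ Subgroup.center Γ) (hv : ev r (per q A B ε) ∈ C)
    (hvn : ev r (per q A B ε) ^ n = 1) (Z : ℕ → Prop) [DecidablePred Z] (U : Wd) :
    ∀ (t : ℕ) (L : Wd), (∀ p ∈ U, p.1 ≤ q + 1) →
      Reals r C (U.flatMap (sub q n (per q A B ε))) L →
      (∀ j s, U[j]? = some (q + 1, s) → ∃ k < n, ∀ i < 2 * n,
        (Z (t + off q n (per q A B ε) U j + i) ↔ i = 2 * k + if s then 0 else 1)) →
      (∀ j s, U[j]? = some (q, s) → ¬ Z (t + off q n (per q A B ε) U j)) →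
      Reals r C U (rs q Z t L) := by
  set v := per q A B ε with hvdef
  induction U with
  | nil =>
    intro t L _ hL _ _
    rw [List.flatMap_nil] at hL
    rw [reals_nil_inv hL]
    exact reals_nil r C
  | cons c U ih =>
    intro t L hU hL h1 h2
    rw [List.flatMap_cons] at hL
    obtain ⟨M, L', rfl, hM, hL'⟩ := reals_append_inv hL
    have hU' : ∀ p ∈ U, p.1 ≤ q + 1 := fun p hp => hU p (List.mem_cons_of_mem _ hp)
    have hoff : ∀ j, off q n v (c :: U) (j + 1) = nT (sub q n v c) q + off q n v U j := by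
      intro j
      unfold off
      rw [List.take_succ_cons, List.flatMap_cons, nT_append]
    have hoff0 : off q n v (c :: U) 0 = 0 := by
      unfold off
      rw [List.take_zero, List.flatMap_nil, nT_nil]
    have hle : ∀ p ∈ sub q n v c, p.1 ≤ q := by
      have hlev : ∀ p ∈ v, p.1 ≤ q := by
        intro p hp
        rw [hvdef, per, List.mem_append, List.mem_cons, List.mem_cons] at hp
        rcases hp with (rfl | hp) | rfl | hp
        · exact le_rfl
        · exact (hA p hp).le
        · exact le_rfl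
        · exact (hB p hp).le
      intro p hp
      have hc := hU c List.mem_cons_self
      unfold sub at hp
      by_cases hcq : c.1 = q + 1
      · rw [if_pos hcq, List.mem_flatten] at hp
        obtain ⟨l, hl, hp⟩ := hp
        rw [List.mem_replicate] at hl
        rw [hl.2] at hp
        by_cases hs : c.2 = true
        · rw [if_pos hs] at hp
          exact hlev p hp
        · rw [if_neg hs] at hp
          obtain ⟨p', h3, h4⟩ := mem_invRev hp
          rw [← h4]
          exact hlev p' h3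
      · rw [if_neg hcq, List.mem_singleton] at hp
        rw [hp]
        omega
    have hnM : nT M q = nT (sub q n v c) q := nT_reals hM hle hq
    rw [rs_append, hnM]
    refine reals_cons ?_ (ih (t + nT (sub q n v c) q) L' hU' hL' ?_ ?_)
    · -- the first letter
      obtain ⟨l, s⟩ := c
      by_cases hcq : l = q + 1
      · subst hcq
        obtain ⟨k, hk, hZ⟩ := h1 0 s (by simp)
        rw [hoff0, add_zero] at hZ
        unfold sub at hM
        rw [if_pos rfl] at hM
        cases s
        · exact raise_neg r C q hq A B ε hA hB axA axB n hC hv hvn Z t k hk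
            (fun i hi => by simpa using hZ i hi) M (by simpa using hM)
        · exact raise_pos r C q hq A B ε hA hB axA axB n hC hv hvn Z t k hk
            (fun i hi => by simpa using hZ i hi) M (by simpa using hM)
      · have hM' : Reals r C [(l, s)] M := by
          unfold sub at hM
          rwa [if_neg hcq] at hM
        obtain ⟨M', M'', rfl, h3, h4⟩ := reals_cons_inv hM'
        rw [reals_nil_inv h4, List.append_nil] at hnM ⊢
        rw [rs_none q Z t M']
        · exact h3
        · intro i hi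
          rw [hnM] at hi
          unfold sub at hi
          rw [if_neg hcq, nT_single] at hi
          by_cases hlq : l = q
          · subst hlq
            rw [if_pos rfl] at hi
            have h5 := h2 0 s (by simp)
            rw [hoff0, add_zero] at h5
            rw [show i = 0 by omega, add_zero]
            exact h5
          · rw [if_neg hlq] at hi
            omega
    · intro j s hj
      obtain ⟨k, hk, hZ⟩ := h1 (j + 1) s (by rw [List.getElem?_cons_succ]; exact hj)
      refine ⟨k, hk, fun i hi => ?_⟩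
      rw [hoff] at hZ
      rw [← hZ i hi]
      simp only [add_assoc]
    · intro j s hj
      have h5 := h2 (j + 1) s (by rw [List.getElem?_cons_succ]; exact hj)
      rw [hoff] at h5
      rw [add_assoc]
      exact h5

end

end H96CD
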